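import Mathlib

namespace Pool.Agent.Results.MP_dc74b6_ag.Counter

open MvPolynomial

/-- the substitution `x_i ↦ ∑_j x_{i,j} t^j` -/
noncomputable def jetSub (k : Type*) [Field k] (n s : ℕ) :
    MvPolynomial (Fin n) k →ₐ[k] Polynomial (MvPolynomial (Fin n × Fin (s + 1)) k) :=
  aeval (fun i => ∑ j : Fin (s + 1), Polynomial.C (X (i, j)) * Polynomial.X ^ (j : ℕ))

/-- the `s`-jet ideal -/
noncomputable def jetIdeal {k : Type*} [Field k] {n : ℕ} (s : ℕ)
    (I : Ideal (MvPolynomial (Fin n) k)) : Ideal (MvPolynomial (Fin n × Fin (s + 1)) k) :=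
  Ideal.span {g | ∃ f ∈ I, ∃ j ≤ s, g = (jetSub k n s f).coeff j}

/-- the edge ideal of a family of subsets -/
noncomputable def edgeIdeal (k : Type*) [Field k] {n : ℕ} (E : Finset (Finset (Fin n))) :
    Ideal (MvPolynomial (Fin n) k) :=
  Ideal.span {f | ∃ e ∈ E, f = ∏ i ∈ e, X i}

variable {k : Type*} [Field k]

def tri : Finset (Finset (Fin 3)) := {{0, 1}, {0, 2}, {1, 2}}

lemma jet_X (i : Fin 3) : jetSub k 3 1 (X i) =
    Polynomial.C (X (i, 0)) + Polynomial.C (X (i, 1)) * Polynomial.X := by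
  simp [jetSub, Fin.sum_univ_two]

lemma jet_XX (a b : Fin 3) : jetSub k 3 1 (X a * X b) =
    Polynomial.C (X (a, 0) * X (b, 0)) +
      Polynomial.C (X (a, 0) * X (b, 1) + X (a, 1) * X (b, 0)) * Polynomial.X ^ 1 +
      Polynomial.C (X (a, 1) * X (b, 1)) * Polynomial.X ^ 2 := by
  simp only [map_mul, map_add, jet_X]; ring

lemma gen_mem {a b : Fin 3} (hab : a ≠ b) (h : ({a, b} : Finset (Fin 3)) ∈ tri) :
    (X (a, 0) * X (b, 0) : MvPolynomial (Fin 3 × Fin 2) k) ∈ jetIdeal 1 (edgeIdeal k tri) ∧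
    (X (a, 0) * X (b, 1) + X (a, 1) * X (b, 0) : MvPolynomial (Fin 3 × Fin 2) k) ∈
      jetIdeal 1 (edgeIdeal k tri) := by
  have hm : (X a * X b : MvPolynomial (Fin 3) k) ∈ edgeIdeal k tri :=
    Ideal.subset_span ⟨_, h, by rw [Finset.prod_pair hab]⟩
  refine ⟨Ideal.subset_span ⟨_, hm, 0, by norm_num, ?_⟩,
    Ideal.subset_span ⟨_, hm, 1, le_rfl, ?_⟩⟩ <;>
  simp only [jet_XX, Polynomial.coeff_add, Polynomial.coeff_C_mul_X_pow, Polynomial.coeff_C] <;>
  simp

lemma jet_le {A : Type*} [CommRing A] (ψ : MvPolynomial (Fin 3 × Fin 2) k →+* A)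
    (h0 : ∀ a b : Fin 3, a < b → ψ (X (a, 0) * X (b, 0)) = 0)
    (h1 : ∀ a b : Fin 3, a < b → ψ (X (a, 0) * X (b, 1) + X (a, 1) * X (b, 0)) = 0) :
    jetIdeal 1 (edgeIdeal k tri) ≤ RingHom.ker ψ := by
  have key : edgeIdeal k tri ≤ Ideal.comap ((Polynomial.mapRingHom ψ).comp
      (jetSub k 3 1).toRingHom) (Ideal.span {Polynomial.X ^ 2}) := by
    have hab : ∀ a b : Fin 3, a < b → (∏ i ∈ ({a, b} : Finset (Fin 3)), X i :
        MvPolynomial (Fin 3) k) ∈ Ideal.comap ((Polynomial.mapRingHom ψ).comp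
          (jetSub k 3 1).toRingHom) (Ideal.span {Polynomial.X ^ 2}) := by
      intro a b h
      rw [Finset.prod_pair h.ne, Ideal.mem_comap, Ideal.mem_span_singleton]
      refine ⟨Polynomial.C (ψ (X (a, 1) * X (b, 1))), ?_⟩
      show Polynomial.map ψ (jetSub k 3 1 (X a * X b)) = _
      rw [jet_XX]
      simp only [Polynomial.map_add, Polynomial.map_mul, Polynomial.map_pow, Polynomial.map_C,
        Polynomial.map_X, h0 a b h, h1 a b h, map_zero]
      ring
    refine Ideal.span_le.2 ?_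
    rintro _ ⟨e, he, rfl⟩
    simp only [tri, Finset.mem_insert, Finset.mem_singleton] at he
    rcases he with rfl | rfl | rfl <;> exact hab _ _ (by decide)
  refine Ideal.span_le.2 ?_
  rintro _ ⟨f, hf, j, hj, rfl⟩
  have h2 := Ideal.mem_span_singleton.1 (Ideal.mem_comap.1 (key hf))
  have h3 := Polynomial.X_pow_dvd_iff.1 h2 j (by omega)
  exact (Polynomial.coeff_map ψ j).symm.trans h3

noncomputable def pi2 : MvPolynomial (Fin 3 × Fin 2) k →ₐ[k] MvPolynomial (Fin 2) k :=
  aeval (fun p => ![![0, X 0], ![0, X 1], ![0, 0]] p.1 p.2)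

noncomputable def pi3 : MvPolynomial (Fin 3 × Fin 2) k →ₐ[k] MvPolynomial (Fin 3) k :=
  aeval (fun p => ![0, X p.1] p.2)

noncomputable def psi : MvPolynomial (Fin 3 × Fin 2) k →ₐ[k] DualNumber (MvPolynomial (Fin 2) k) :=
  aeval (fun p => ![![TrivSqZeroExt.inr (X 0), TrivSqZeroExt.inl (X 0)],
    ![TrivSqZeroExt.inr (-X 1), TrivSqZeroExt.inl (X 1)], ![0, 0]] p.1 p.2)

noncomputable def sig : MvPolynomial (Fin 2) k →ₐ[k] MvPolynomial (Fin 3 × Fin 2) k :=
  aeval ![X (0, 1), X (1, 1)]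

lemma psi_fst (f : MvPolynomial (Fin 3 × Fin 2) k) : (psi f).fst = pi2 f := by
  induction f using MvPolynomial.induction_on with
  | C a => simp [psi, pi2, TrivSqZeroExt.algebraMap_eq_inl']
  | add f g hf hg => simp [hf, hg]
  | mul_X f p hf =>
    rw [map_mul, map_mul, TrivSqZeroExt.fst_mul, hf]
    congr 1
    obtain ⟨a, j⟩ := p
    fin_cases a <;> fin_cases j <;> simp [psi, pi2]

lemma ann_eq (h2 : (2 : k) ≠ 0) (f : MvPolynomial (Fin 3 × Fin 2) k) :
    f * (X (0, 0) * X (1, 1)) ∈ jetIdeal 1 (edgeIdeal k tri) ↔ pi2 f = 0 := by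
  constructor
  · intro h
    have h1 := jet_le (psi (k := k)).toRingHom (by
      intro a b hab
      fin_cases a <;> fin_cases b <;> simp at hab <;> simp [psi, TrivSqZeroExt.inr_mul_inr]) (by
      intro a b hab
      fin_cases a <;> fin_cases b <;> simp at hab <;> (ext1 <;> simp [psi, mul_comm])) h
    have h3 : psi (f * (X (0, 0) * X (1, 1))) = 0 := h1
    have h4 := congrArg TrivSqZeroExt.snd h3
    simp [psi_fst, psi] at h4
    rw [← psi_fst]
    simpa [psi] using h4
  · intro h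
    obtain ⟨a1, a2⟩ := gen_mem (k := k) (a := 0) (b := 1) (by decide) (by decide)
    obtain ⟨b1, b2⟩ := gen_mem (k := k) (a := 0) (b := 2) (by decide) (by decide)
    obtain ⟨c1, c2⟩ := gen_mem (k := k) (a := 1) (b := 2) (by decide) (by decide)
    have hX : ∀ p : Fin 3 × Fin 2, (X p - sig (pi2 (X p))) * (X (0, 0) * X (1, 1)) ∈
        jetIdeal 1 (edgeIdeal k tri) := by
      rintro ⟨a, j⟩
      fin_cases a <;> fin_cases j
      · convert sub_mem (Ideal.mul_mem_left _ (X (0, 0)) a2) (Ideal.mul_mem_left _ (X (0, 1)) a1)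
          using 1
        simp [pi2]; ring
      · simp [pi2, sig]
      · convert Ideal.mul_mem_left _ (X (1, 1)) a1 using 1
        simp [pi2]; ring
      · simp [pi2, sig]
      · convert Ideal.mul_mem_left _ (X (1, 1)) b1 using 1
        simp [pi2]; ring
      · convert Ideal.mul_mem_left _ (C (2 : k)⁻¹) (sub_mem (add_mem
          (Ideal.mul_mem_left _ (X (1, 1)) b2) (Ideal.mul_mem_left _ (X (2, 1)) a2))
          (Ideal.mul_mem_left _ (X (0, 1)) c2)) using 1
        have h5 : (C (2 : k)⁻¹ : MvPolynomial (Fin 3 × Fin 2) k) * 2 = 1 := by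
          rw [← map_ofNat C 2, ← map_mul, inv_mul_cancel₀ h2, map_one]
        simp [pi2]
        linear_combination (-(X (2, 1) * X (0, 0) * X (1, 1))) * h5
    have hall : ∀ g : MvPolynomial (Fin 3 × Fin 2) k,
        (g - sig (pi2 g)) * (X (0, 0) * X (1, 1)) ∈ jetIdeal 1 (edgeIdeal k tri) := by
      intro g
      induction g using MvPolynomial.induction_on with
      | C a => simp [algHom_C]
      | add f g hf hg => convert add_mem hf hg using 1; simp only [map_add]; ring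
      | mul_X f p hf =>
        convert add_mem (Ideal.mul_mem_left _ (X p) hf)
          (Ideal.mul_mem_left _ (sig (pi2 f)) (hX p)) using 1
        simp only [map_mul]; ring
    simpa [h] using hall f

theorem result (k : Type) [Field k] (h2 : (2 : k) ≠ 0) :
    ∃ (n s : ℕ) (E : Finset (Finset (Fin n))), (∀ e ∈ E, e.Nonempty) ∧
      (∀ e ∈ E, ∀ e' ∈ E, e ⊆ e' → e = e') ∧
      ∃ P ∈ associatedPrimes (MvPolynomial (Fin n × Fin (s + 1)) k)
        (MvPolynomial (Fin n × Fin (s + 1)) k ⧸ jetIdeal s (edgeIdeal k E)),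
        P ∉ (jetIdeal s (edgeIdeal k E)).minimalPrimes := by
  refine ⟨3, 1, tri, by decide, by decide, RingHom.ker (pi2 (k := k)).toRingHom, ?_, ?_⟩
  · rw [AssociatedPrimes.mem_iff, isAssociatedPrime_iff]
    refine ⟨RingHom.ker_isPrime _, Ideal.Quotient.mk _ (X (0, 0) * X (1, 1)), ?_⟩
    ext f
    rw [Submodule.mem_colon_singleton, Submodule.mem_bot, RingHom.mem_ker]
    refine (ann_eq h2 f).symm.trans ?_
    rw [← Ideal.Quotient.eq_zero_iff_mem]
    rfl
  · intro hP
    have h1 : jetIdeal 1 (edgeIdeal k tri) ≤ RingHom.ker (pi3 (k := k)).toRingHom :=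
      jet_le _ (fun a b _ => by simp [pi3]) (fun a b _ => by simp [pi3])
    have h3 : RingHom.ker (pi3 (k := k)).toRingHom ≤ RingHom.ker (pi2 (k := k)).toRingHom := by
      have e : (pi2 (k := k)) = (aeval ![X 0, X 1, 0]).comp pi3 := by
        ext1 ⟨a, j⟩
        fin_cases a <;> fin_cases j <;> simp [pi2, pi3]
      intro f hf
      have hf' : pi3 f = 0 := hf
      show pi2 f = 0
      rw [e, AlgHom.comp_apply, hf', map_zero]
    have h4 := hP.2 ⟨RingHom.ker_isPrime _, h1⟩ h3 (show X (2, 1) ∈ _ by simp [pi2])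
    simp [pi3] at h4

end Pool.Agent.Results.MP_dc74b6_ag.Counter
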